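import Pool.Agent.H.MP_345b41_al.LGrp

set_option autoImplicit false

namespace Pool.Agent.Results.MP_345b41_al.ThreeAffineMaps

open Pool.Agent.H.MP_345b41_al

universe u v w

/-- The group `G` with its lattice order is an l-group: `x ≤ y` implies `z x ≤ z y` and
`x z ≤ y z`. -/
def IsLGroup (G : Type u) [Group G] [Lattice G] : Prop :=
  ∀ x y z : G, x ≤ y → z * x ≤ z * y ∧ x * z ≤ y * z

/-- The lattices `H` and `G` are isomorphic: some bijection preserves meets and joins. -/
def LatticeIso (H : Type u) (G : Type v) [Lattice H] [Lattice G] : Prop :=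
  ∃ φ : H → G, Function.Bijective φ ∧
    (∀ x y, φ (x ⊓ y) = φ x ⊓ φ y) ∧ (∀ x y, φ (x ⊔ y) = φ x ⊔ φ y)

/-- `H` is generated by `a`, `b`, `c` as an l-group: every subset that contains them and is closed
under products, inverses, joins and meets is all of `H`. -/
def GeneratedBy (H : Type u) [Group H] [Lattice H] (a b c : H) : Prop :=
  ∀ A : Set H, a ∈ A → b ∈ A → c ∈ A →
    (∀ x ∈ A, ∀ y ∈ A, x * y ∈ A ∧ x ⊔ y ∈ A ∧ x ⊓ y ∈ A) → (∀ x ∈ A, x⁻¹ ∈ A) → A = Set.univ

/-- `e` embeds the l-group `H` in the l-group of all order automorphisms of the rationals, with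
composition and the pointwise maximum and minimum. -/
def IsLEmbedding (H : Type u) [Group H] [Lattice H] (e : H →* (ℚ ≃o ℚ)) : Prop :=
  Function.Injective e ∧ (∀ f g x, e (f ⊔ g) x = max (e f x) (e g x)) ∧
    (∀ f g x, e (f ⊓ g) x = min (e f x) (e g x))

/-- The l-group generated by the three affine maps `x ↦ (x + 1) / 4`, `x ↦ 3 x` and `x ↦ 2 x - 2`
of the rationals is countable, and its lattice is not the lattice of an abelian l-group. -/
theorem result :
    ∃ (H : Type) (_ : Group H) (_ : Lattice H) (a b c : H) (e : H →* (ℚ ≃o ℚ)),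
      IsLGroup H ∧ Countable H ∧ GeneratedBy H a b c ∧ IsLEmbedding H e ∧
      (∀ x, e a x = (x + 1) / 4) ∧ (∀ x, e b x = 3 * x) ∧ (∀ x, e c x = 2 * x - 2) ∧
      ∀ (G : Type w) [CommGroup G] [Lattice G], IsLGroup G → ¬ LatticeIso H G := by
  refine ⟨HH, inferInstance, inferInstance, ⟨ga, ga_mem⟩, ⟨gb, gb_mem⟩, ⟨gc, gc_mem⟩, HH.subtype,
    ?_, inferInstance, ?_, ⟨?_, ?_, ?_⟩, ?_, ?_, ?_, ?_⟩
  · intro x y z h
    exact ⟨mul_le_mul_right h z, mul_le_mul_left h z⟩
  · intro A ha hb hc hop hinv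
    have key : ∀ n, ∀ f (hf : f ∈ HH), f ∈ S n → (⟨f, hf⟩ : HH) ∈ A := by
      intro n
      induction n with
      | zero =>
        intro f hf hfn
        rcases hfn with h | h | h | h
        · subst h
          have h1 := (hop _ ha _ (hinv _ ha)).1
          have h2 : (⟨ga, ga_mem⟩ : HH) * (⟨ga, ga_mem⟩ : HH)⁻¹ = ⟨1, hf⟩ := by
            rw [mul_inv_cancel]; rfl
          rw [h2] at h1; exact h1
        · subst h; exact ha
        · subst h; exact hb
        · have h' : f = gc := h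
          subst h'; exact hc
      | succ n ih =>
        intro f hf hfn
        rcases hfn with h | ⟨f1, h1, f2, h2, rfl⟩ | ⟨f1, h1, rfl⟩ | ⟨f1, h1, f2, h2, rfl⟩ |
          ⟨f1, h1, f2, h2, rfl⟩
        · exact ih f hf h
        · have m1 : f1 ∈ HH := (mem_HH _).mpr ⟨n, h1⟩
          have m2 : f2 ∈ HH := (mem_HH _).mpr ⟨n, h2⟩
          exact (hop _ (ih f1 m1 h1) _ (ih f2 m2 h2)).1
        · have m1 : f1 ∈ HH := (mem_HH _).mpr ⟨n, h1⟩
          exact hinv _ (ih f1 m1 h1)
        · have m1 : f1 ∈ HH := (mem_HH _).mpr ⟨n, h1⟩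
          have m2 : f2 ∈ HH := (mem_HH _).mpr ⟨n, h2⟩
          exact (hop _ (ih f1 m1 h1) _ (ih f2 m2 h2)).2.1
        · have m1 : f1 ∈ HH := (mem_HH _).mpr ⟨n, h1⟩
          have m2 : f2 ∈ HH := (mem_HH _).mpr ⟨n, h2⟩
          exact (hop _ (ih f1 m1 h1) _ (ih f2 m2 h2)).2.2
    refine Set.eq_univ_of_forall ?_
    rintro ⟨f, hf⟩
    obtain ⟨n, hn⟩ := (mem_HH f).mp hf
    exact key n f hf hn
  · exact Subtype.val_injective
  · intro f g x; rfl
  · intro f g x; rfl
  · intro x; rfl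
  · intro x; rfl
  · intro x; rfl
  · intro G _ _ hG hiso
    obtain ⟨φ, hb, hinf, _⟩ := hiso
    have hle : ∀ x y : HH, φ x ≤ φ y ↔ x ≤ y := by
      intro x y
      rw [← inf_eq_left, ← hinf, hb.1.eq_iff, inf_eq_left]
    have hm : @MulLeftMono HH (Equiv.mul (Equiv.ofBijective φ hb)) _ := by
      refine ⟨fun z x y h => ?_⟩
      have h1 : φ z * φ x ≤ φ z * φ y := (hG _ _ _ ((hle x y).mpr h)).1
      have h2 : φ ((Equiv.ofBijective φ hb).symm (φ z * φ x)) ≤
          φ ((Equiv.ofBijective φ hb).symm (φ z * φ y)) := by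
        have e1 := (Equiv.ofBijective φ hb).apply_symm_apply (φ z * φ x)
        have e2 := (Equiv.ofBijective φ hb).apply_symm_apply (φ z * φ y)
        rw [Equiv.ofBijective_apply] at e1 e2
        rw [e1, e2]; exact h1
      exact (hle _ _).mp h2
    exact @not_iso HH (Equiv.commGroup (Equiv.ofBijective φ hb)) _ hm (OrderIso.refl HH)

end Pool.Agent.Results.MP_345b41_al.ThreeAffineMaps
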